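import Pool.Agent.W543.MO.Parts

set_option autoImplicit false

/-!
# Regularity of correspondences implies that rational and numerical equivalence coincide
-/

open CategoryTheory AlgebraicGeometry

namespace Pool.Agent.W368.MO

open Pool.Agent.H914 Pool.Agent.H914.VarClass Pool.Agent.H914.VarClass.Obj Pool.Agent.W492.BB
  Pool.Agent.W550.Corr Pool.Agent.W484.CK Pool.Agent.W543.MO

variable {k : Type} [Field k] {𝒱 : VarClass k} {C : TheoryData.{0, 0, 0} 𝒱 ℚ} {K : Type} [Field K]
  {H : WeilTheoryData.{0, 0, 0} C K}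

theorem cl_smul' [CharZero K] {X : 𝒱.Obj} (c : ℚ) (z : C.A X) :
    H.cl (c • z) = (c : K) • H.cl z := by
  have h1 : H.cl (algebraMap ℚ (C.A X) c) = algebraMap K (H.A X) (c : K) := by
    have h2 : (H.cl).comp (algebraMap ℚ (C.A X)) =
        (algebraMap K (H.A X)).comp (algebraMap ℚ K) := Subsingleton.elim _ _
    have h3 := RingHom.congr_fun h2 c
    rw [RingHom.comp_apply, RingHom.comp_apply, eq_ratCast (algebraMap ℚ K)] at h3
    exact h3
  rw [Algebra.smul_def, map_mul, h1, Algebra.smul_def]

/-- composition with an external product -/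
theorem comp_ext [IsChow C] [HasIso C] {X Y Z : 𝒱.Obj} (a : C.A X) (b : C.A Y)
    (Δ : C.A (Y.prod Z)) : C.comp (C.ext a b) Δ = C.ext a (C.act Δ b) := by
  rw [comp_eq_extR C, C.extR_ext Δ (fun c => chow_mul_comm _ _)]

/-- the orientation of the class of a zero-cycle of degree one is not zero -/
theorem tr_point_ne [IsChow C] [CharZero K] [IsWeil H] (hS : IsStandard H) (X : 𝒱.Obj) (a : C.A X)
    (ha1 : C.push (fst X X) (C.pull (snd X X) a) = 1) : H.tr X (H.cl a) ≠ 0 := by
  intro h0
  have hnt := hS.nontrivial X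
  have key : ∀ c : H.A X, H.tr X c = H.tr X (H.push (snd X X) (H.pull (fst X X) c) * H.cl a) := by
    intro c
    have e1 : H.push (fst X X) (H.pull (fst X X) c * H.pull (snd X X) (H.cl a)) = c := by
      rw [H.proj_left, ← H.cl_pull, ← H.cl_push, ha1, map_one, mul_one]
    have e2 : H.push (snd X X) (H.pull (fst X X) c * H.pull (snd X X) (H.cl a)) =
        H.push (snd X X) (H.pull (fst X X) c) * H.cl a := H.proj_right _ _ _
    rw [← e2, H.tr_push, ← H.tr_push (fst X X), e1]
  have hhom : ∀ (m : ℤ) (c : H.A X), c ∈ H.gr X m → H.tr X c = 0 := by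
    intro m c hc
    have h1 := H.push_mem (snd X X) (H.pull_mem (fst X X) hc)
    have e1 : m + 2 * ((X.dim : ℤ) - ((X.prod X).dim : ℤ)) = m - 2 * X.dim := by
      rw [dim_prod]; push_cast; ring
    rw [e1] at h1
    rcases lt_trichotomy m (2 * X.dim) with h | h | h
    · rw [H.gr_neg X _ (by omega)] at h1
      rw [key c, (Submodule.mem_bot _).1 h1, zero_mul, map_zero]
    · rw [show m - 2 * (X.dim : ℤ) = 0 by omega] at h1
      obtain ⟨s, hs⟩ := hS.coh_zero X _ h1
      rw [key c, hs, smul_mul_assoc, one_mul, map_smul, h0, smul_zero]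
    · rw [hS.coh_top X m c h hc, map_zero]
  have hall : ∀ c : H.A X, H.tr X c = 0 := by
    intro c
    have h1 : (⊤ : Submodule K (H.A X)) ≤ LinearMap.ker (H.tr X) := by
      rw [← (H.isInternal X).submodule_iSup_eq_top]
      exact iSup_le fun m c hc => hhom m c hc
    exact h1 Submodule.mem_top
  have h1 : (1 : H.A X) = 0 := H.nondeg 1 fun b => hall _
  exact one_ne_zero h1

theorem t_REGNUM : REGNUM_stmt := by
  intro k _ 𝒱 C _ _ K _ _ H _ hS X hreg i z hz hnum
  change z ∈ C.gr X i at hz
  rcases lt_or_ge X.dim i with hi | hi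
  · exact hS.chow_top X i z (by exact_mod_cast hi) hz
  obtain ⟨a, ha, ha1, ha2⟩ := exists_deg_one C X
  -- the correspondence
  set u : C.A (X.prod X) := C.ext 1 z with hu
  have hum : u ∈ C.gr (X.prod X) i := by
    have h1 := C.mul_mem (C.pull_mem (fst X X) (C.one_mem X)) (C.pull_mem (snd X X) hz)
    rw [zero_add] at h1
    exact h1
  obtain ⟨g, hg, hgu⟩ := hreg i u hum
  set y : C.A X := C.act g z with hy
  have hym : y ∈ C.gr X X.dim := by
    have h1 := act_mem (e := X.dim - i) (Γ := g) (by
      rw [show (X.dim : ℤ) + (X.dim - i) = 2 * X.dim - i by ring]; exact hg) hz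
    rw [show (i : ℤ) + (X.dim - i) = X.dim by ring] at h1
    exact h1
  -- the degree of `y`
  obtain ⟨q, hq⟩ : ∃ q : ℚ, C.push (snd X X) (C.pull (fst X X) y) = q • 1 := by
    have h1 := C.push_mem (snd X X) (C.pull_mem (fst X X) hym)
    have e1 : (X.dim : ℤ) + 1 * ((X.dim : ℤ) - ((X.prod X).dim : ℤ)) = 0 := by
      rw [dim_prod]; push_cast; ring
    rw [e1] at h1
    exact hS.chow_zero X _ h1
  have hact : C.act u y = q • z := by
    rw [TheoryData.act_apply, hu, TheoryData.ext, map_one, one_mul, C.proj_left, hq,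
      mul_smul_comm, mul_one]
  have hext : ∀ (r : ℚ) (x : C.A X), C.ext (1 : C.A X) (r • x) = r • C.ext (1 : C.A X) x := by
    intro r x
    rw [TheoryData.ext, TheoryData.ext, map_smul, mul_smul_comm]
  have hu1 : u = q • u := by
    have h1 : C.comp u g = C.ext 1 y := by rw [hu, comp_ext]
    have h2 : C.comp u (C.comp g u) = q • u := by
      rw [← comp_assoc C, h1, comp_ext, hact, hext]
    rw [← h2, hgu]
  -- the intersection number
  have htr0 : H.tr X (H.cl y) = 0 := by
    have h1 : H.cl y = H.push (snd X X) (H.cl (g * C.pull (fst X X) z)) := by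
      rw [← H.cl_push]
      rfl
    rw [h1, H.tr_push, ← H.tr_push (fst X X), ← H.cl_push, C.proj_right]
    have h2 := C.push_mem (fst X X) hg
    have e1 : 2 * (X.dim : ℤ) - i + 1 * ((X.dim : ℤ) - ((X.prod X).dim : ℤ)) =
        ((X.dim - i : ℕ) : ℤ) := by
      rw [dim_prod, Nat.cast_sub hi]; push_cast; ring
    rw [e1] at h2
    have h3 := hnum (X.dim - i) (C.push (fst X X) g) (by omega) h2
    rw [chow_mul_comm]
    exact h3
  have htr1 : H.tr X (H.cl y) = (q : K) * H.tr X (H.cl a) := by
    have e1 : C.push (fst X X) (C.pull (fst X X) y * C.pull (snd X X) a) = y := by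
      rw [C.proj_left, ha1 X, mul_one]
    have e2 : C.push (snd X X) (C.pull (fst X X) y * C.pull (snd X X) a) = q • a := by
      rw [C.proj_right, hq, smul_mul_assoc, one_mul]
    have e3 : H.tr X (H.cl y) = H.tr X (H.cl (q • a)) := by
      rw [← e2, H.cl_push, H.tr_push, ← H.tr_push (fst X X), ← H.cl_push, e1]
    rw [e3, cl_smul', map_smul, smul_eq_mul]
  have hq0 : q = 0 := by
    rw [htr0] at htr1
    rcases mul_eq_zero.1 htr1.symm with h | h
    · exact_mod_cast h
    · exact absurd h (tr_point_ne hS X a (ha1 X))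
  have hu0 : u = 0 := by rw [hu1, hq0, zero_smul]
  have h1 : C.push (snd X X) (C.pull (fst X X) a * C.pull (snd X X) z) = z := by
    rw [C.proj_right, ha2 X, one_mul]
  have h2 : C.pull (snd X X) z = 0 := by
    have : u = C.pull (snd X X) z := by rw [hu, TheoryData.ext, map_one, one_mul]
    rw [← this, hu0]
  rw [← h1, h2, mul_zero, map_zero]

end Pool.Agent.W368.MO
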